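import Pool.Agent.Helper43.TN.Sep

/-! Windows, third part: all degrees. -/

set_option autoImplicit false

namespace Pool.Agent.Helper43.TN

/-- the decomposition of the order -/
theorem decomp {N u r : ℕ} (hr : r.Prime) (hN : 0 < N) (h : r ∣ N / Nat.gcd u N) :
    ∃ (M f j v : ℕ), 0 < f ∧ 0 < M ∧ ¬ r ∣ M ∧ ¬ r ∣ v ∧ N = M * r ^ f * r ^ j ∧ u = v * r ^ j := by
  obtain ⟨e, M, hM, hNe⟩ := Nat.exists_eq_pow_mul_and_not_dvd hN.ne' r hr.one_lt.ne'
  have hu : u ≠ 0 := by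
    rintro rfl
    rw [Nat.gcd_zero_left, Nat.div_self hN] at h
    exact hr.one_lt.ne' (Nat.dvd_one.1 h)
  obtain ⟨j, v, hv, huj⟩ := Nat.exists_eq_pow_mul_and_not_dvd hu r hr.one_lt.ne'
  have hje : j < e := by
    by_contra hcon
    push Not at hcon
    have h1 : r ^ e ∣ Nat.gcd u N := by
      refine Nat.dvd_gcd ?_ ?_
      · rw [huj]
        exact (Nat.pow_dvd_pow r hcon).mul_right _
      · rw [hNe]
        exact Dvd.intro _ rfl
    obtain ⟨c, hc⟩ := h1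
    obtain ⟨d, hd⟩ := Nat.gcd_dvd_right u N
    have hg : 0 < Nat.gcd u N := Nat.gcd_pos_of_pos_right _ hN
    have h2 : N / Nat.gcd u N = d := Nat.div_eq_of_eq_mul_right hg hd
    rw [h2] at h
    have h3 : r ^ e * (c * d) = r ^ e * M := by
      rw [← hNe, ← mul_assoc, ← hc]
      exact hd.symm
    have h4 := Nat.eq_of_mul_eq_mul_left (Nat.pow_pos hr.pos) h3
    exact hM (by rw [← h4]; exact h.mul_left c)
  refine ⟨M, e - j, j, v, by omega, Nat.pos_of_ne_zero (by rintro rfl; simp at hM), hM, hv, ?_, ?_⟩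
  · rw [mul_assoc, ← pow_add, Nat.sub_add_cancel hje.le, hNe, mul_comm]
  · rw [huj, mul_comm]

/-- scaling -/
theorem W_scale {A D N s R : ℤ} (hR : 0 < R) : W A D (N * R) (s * R) ↔ W A D N s := by
  constructor
  · rintro ⟨k, h1, h2⟩
    refine ⟨k, ?_, ?_⟩
    · have : -(D * N) * R < A * (s - k * N) * R := by linarith
      exact lt_of_mul_lt_mul_right this hR.le
    · have : A * (s - k * N) * R < (D * N) * R := by linarith
      exact lt_of_mul_lt_mul_right this hR.le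
  · rintro ⟨k, h1, h2⟩
    refine ⟨k, ?_, ?_⟩
    · have : -(D * N) * R < A * (s - k * N) * R := mul_lt_mul_of_pos_right h1 hR
      linarith
    · have : A * (s - k * N) * R < (D * N) * R := mul_lt_mul_of_pos_right h2 hR
      linarith

/-- natural numbers -/
theorem to_nat {M r N : ℕ} (hr : r.Prime) (hN : 0 < N) (hNM : ∀ p : ℕ, p.Prime → p ∣ N → p ∣ M ∨ p = r) {t : ℤ}
    (ht : IsCoprime t (M : ℤ)) (htr : ¬ (r : ℤ) ∣ t) : ∃ t' : ℕ, Nat.Coprime t' N ∧ (N : ℤ) ∣ t - t' := by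
  have hN' : (0 : ℤ) < N := by exact_mod_cast hN
  refine ⟨(t % N).toNat, ?_, ?_⟩
  · have h1 : ((t % N).toNat : ℤ) = t % N := Int.toNat_of_nonneg (Int.emod_nonneg _ hN'.ne')
    refine Nat.Coprime.symm (Nat.coprime_of_dvd fun p hp hpN hpt => ?_)
    have h2 : (p : ℤ) ∣ t := by
      have h3 : (p : ℤ) ∣ t % N := by rw [← h1]; exact_mod_cast hpt
      have h4 : (p : ℤ) ∣ N := by exact_mod_cast hpN
      rw [← Int.mul_ediv_add_emod t N]
      exact (h4.mul_right _).add h3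
    rcases hNM p hp hpN with h3 | h3
    · have h4 : IsUnit (p : ℤ) := ht.isUnit_of_dvd' h2 (by exact_mod_cast h3)
      rw [Int.isUnit_iff] at h4
      have := hp.one_lt
      omega
    · subst h3
      exact htr h2
  · rw [Int.toNat_of_nonneg (Int.emod_nonneg _ hN'.ne')]
    exact ⟨t / N, by have := Int.mul_ediv_add_emod t N; linarith⟩

/-- asymmetry -/
theorem asym {A D N u r : ℕ} (hr : r.Prime) (hA : 0 < A) (hDA : D + 1 ≤ A) (hAr : 2 * A < r) (hN : 0 < N)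
    (h : r ∣ N / Nat.gcd u N) :
    ∃ t, Nat.Coprime t N ∧ D * N ≤ A * (t * u % N) ∧ A * (t * u % N) < (D + 1) * N := by
  obtain ⟨M, f, j, v, hf, hM, hrM, hrv, hNe, hu⟩ := decomp hr hN h
  have hrz : Prime (r : ℤ) := Nat.prime_iff_prime_int.1 hr
  have hMz : (0 : ℤ) < M := by exact_mod_cast hM
  have hrMz : ¬ (r : ℤ) ∣ M := by exact_mod_cast hrM
  have hrvz : ¬ (r : ℤ) ∣ v := by exact_mod_cast hrv
  obtain ⟨Q, hQd⟩ : ∃ Q, Q = (r : ℤ) ^ f := ⟨_, rfl⟩
  have hQr : (r : ℤ) ≤ Q := by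
    rw [hQd]
    calc (r : ℤ) = r ^ 1 := (pow_one _).symm
      _ ≤ r ^ f := pow_le_pow_right₀ (by exact_mod_cast hr.one_lt.le) hf
  have hQA : 2 * (A : ℤ) < Q := by
    have : 2 * (A : ℤ) < r := by exact_mod_cast hAr
    omega
  have hcopr : ∀ x : ℤ, ¬ (r : ℤ) ∣ x → IsCoprime x Q := fun x hx => by
    rw [hQd]
    exact (IsCoprime.pow_right ((Prime.coprime_iff_not_dvd hrz).2 hx).symm)
  have hAM : (0 : ℤ) < A * M := by positivity
  obtain ⟨b, hb1, hb2⟩ := least hAM ((D : ℤ) * (M * Q) - A * v - 1)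
  have hr1 : (1 : ℤ) < r := by exact_mod_cast hr.one_lt
  obtain ⟨i, hi, hib⟩ : ∃ i, ¬ (r : ℤ) ∣ v + M * i ∧ (i = b ∨ i = b + 1) := by
    rcases allowed2 hrz hr1 hrMz (x := (v : ℤ)) b with h | h
    · exact ⟨b, h, Or.inl rfl⟩
    · exact ⟨b + 1, h, Or.inr rfl⟩
  have hpos : (D : ℤ) * (M * Q) ≤ A * (v + M * i) ∧ A * (v + M * i) < (D + 1) * (M * Q) := by
    have h1 : 2 * (A : ℤ) * M < Q * M := mul_lt_mul_of_pos_right hQA hMz
    have e' : (A : ℤ) * M * (b - 1) = A * M * b - A * M := by ring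
    rw [e'] at hb1
    have e : (A : ℤ) * (v + M * i) = A * v + A * M * i := by ring
    rw [e]
    rcases hib with rfl | rfl
    · constructor <;> nlinarith
    · have e2 : (A : ℤ) * M * (b + 1) = A * M * b + A * M := by ring
      rw [e2]
      constructor <;> nlinarith
  obtain ⟨t, ht1, ht2, ht3, -⟩ := exists_t (r := (r : ℤ)) (κ := 1) (v' := (v : ℤ)) (hcopr M hrMz) (by rw [hQd]; exact dvd_pow_self _ hf.ne')
    isCoprime_one_left (hcopr v hrvz) (by rw [one_mul, sub_self]; exact dvd_zero _) (by rwa [one_mul])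
  rw [one_mul] at ht3
  obtain ⟨t', ht', hN'⟩ := to_nat hr hN (fun p hp hpN => by
    rw [hNe, mul_assoc, ← pow_add] at hpN
    rcases (Nat.Prime.dvd_mul hp).1 hpN with h1 | h1
    · exact Or.inl h1
    · exact Or.inr ((Nat.prime_dvd_prime_iff_eq hp hr).1 (hp.dvd_of_dvd_pow h1))) ht1 ht2
  refine ⟨t', ht', ?_⟩
  -- t' u = x r ^ j modulo N
  obtain ⟨x, hx⟩ : ∃ x, x = (v : ℤ) + M * i := ⟨_, rfl⟩
  rw [← hx] at hpos ht3
  have hrj : (0 : ℤ) < (r : ℤ) ^ j := pow_pos (by omega) _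
  have hQ0 : 0 < Q := by omega
  have hNz : (N : ℤ) = M * Q * r ^ j := by rw [hNe, hQd]; push_cast; ring
  have hAz : (0 : ℤ) < A := by exact_mod_cast hA
  have hx0 : 0 ≤ x := by
    by_contra hneg
    push Not at hneg
    have h1 : (A : ℤ) * x < 0 := mul_neg_of_pos_of_neg hAz hneg
    have h2 : (0 : ℤ) ≤ D * (M * Q) := by positivity
    linarith [hpos.1]
  have hxN : x < M * Q := by
    by_contra hge
    push Not at hge
    have h1 : (A : ℤ) * (M * Q) ≤ A * x := mul_le_mul_of_nonneg_left hge hAz.le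
    have h2 : ((D : ℤ) + 1) * (M * Q) ≤ A * (M * Q) :=
      mul_le_mul_of_nonneg_right (by exact_mod_cast hDA) (by positivity)
    linarith [hpos.2]
  have hmod : ((t' * u % N : ℕ) : ℤ) = x * r ^ j := by
    rw [Int.natCast_mod]
    have h1 : (N : ℤ) ∣ ((t' * u : ℕ) : ℤ) - x * r ^ j := by
      have e : ((t' * u : ℕ) : ℤ) - x * r ^ j = (t * v - x) * r ^ j - (t - t') * (v * r ^ j) := by
        rw [hu]
        push_cast
        ring
      rw [e]
      refine (?_ : (N : ℤ) ∣ _).sub (hN'.mul_right _)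
      rw [hNz]
      exact mul_dvd_mul_right ht3 _
    rw [(Int.emod_emod_of_dvd _ dvd_rfl).symm]
    rw [Int.emod_emod_of_dvd _ dvd_rfl, (Int.emod_eq_emod_iff_emod_sub_eq_zero.2 (Int.emod_eq_zero_of_dvd h1))]
    refine Int.emod_eq_of_lt (by positivity) ?_
    rw [hNz]
    exact mul_lt_mul_of_pos_right hxN hrj
  constructor
  · have h1 : (D : ℤ) * (M * Q) * r ^ j ≤ A * x * r ^ j := mul_le_mul_of_nonneg_right hpos.1 hrj.le
    have : (D : ℤ) * N ≤ A * ((t' * u % N : ℕ) : ℤ) := by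
      rw [hmod, hNz]
      linarith
    exact_mod_cast this
  · have h1 : (A : ℤ) * x * r ^ j < (D + 1) * (M * Q) * r ^ j := mul_lt_mul_of_pos_right hpos.2 hrj
    have : (A : ℤ) * ((t' * u % N : ℕ) : ℤ) < (D + 1) * N := by
      rw [hmod, hNz]
      linarith
    exact_mod_cast this

/-- no equality -/
theorem no_eq {A N u r t : ℕ} (hr : r.Prime) (hA : 0 < A) (hAr : A < r) (hN : 0 < N) (h : r ∣ N / Nat.gcd u N)
    (ht : Nat.Coprime t N) (c : ℕ) : A * (t * u % N) ≠ c * N := by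
  intro he
  obtain ⟨M, f, j, v, hf, hM, hrM, hrv, hNe, hu⟩ := decomp hr hN h
  have h1 : N ∣ A * (t * u) := by
    have h2 := Nat.div_add_mod (t * u) N
    rw [← h2, mul_add, he]
    exact (Dvd.intro_left (A * (t * u / N)) (by ring)).add (Dvd.intro_left c rfl)
  have hrN : r ∣ N := by
    rw [hNe]
    exact ((dvd_pow_self r hf.ne').mul_left M).mul_right _
  rw [hNe, hu, show A * (t * (v * r ^ j)) = A * t * v * r ^ j by ring] at h1
  have h2 := Nat.dvd_of_mul_dvd_mul_right (Nat.pow_pos hr.pos) h1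
  have h3 : r ∣ A * t * v := ((dvd_pow_self r hf.ne').mul_left M).trans h2
  rcases (Nat.Prime.dvd_mul hr).1 h3 with h4 | h4
  · rcases (Nat.Prime.dvd_mul hr).1 h4 with h5 | h5
    · have := Nat.le_of_dvd hA h5
      omega
    · have h6 := Nat.dvd_gcd h5 hrN
      rw [Nat.Coprime.gcd_eq_one ht] at h6
      exact hr.one_lt.ne' (Nat.dvd_one.1 h6)
  · exact hrv h4

theorem primes {M r f j N : ℕ} (hr : r.Prime) (hNe : N = M * r ^ f * r ^ j) (p : ℕ) (hp : p.Prime) (hpN : p ∣ N) :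
    p ∣ M ∨ p = r := by
  rw [hNe, mul_assoc, ← pow_add] at hpN
  rcases (Nat.Prime.dvd_mul hp).1 hpN with h1 | h1
  · exact Or.inl h1
  · exact Or.inr ((Nat.prime_dvd_prime_iff_eq hp hr).1 (hp.dvd_of_dvd_pow h1))

/-- different levels -/
theorem diff {A D M N r f j u u' t₀ : ℕ} {v : ℕ} (hr : r.Prime) (hD : 0 < D) (hDA : 4 * D ≤ A) (hAr : 4 * A < r)
    (hM : 0 < M) (hrM : ¬ r ∣ M) (hrv : ¬ r ∣ v) (hNe : N = M * r ^ (f + 1) * r ^ j) (hu : u = v * r ^ j)
    (hu' : r ^ (j + 1) ∣ u') (ht₀ : Nat.Coprime t₀ N) (h : ¬ W A D N ((t₀ * u' : ℕ) : ℤ)) :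
    ∃ t : ℕ, Nat.Coprime t N ∧ W A D N ((t * u : ℕ) : ℤ) ∧ ¬ W A D N ((t * u' : ℕ) : ℤ) := by
  have hrz : Prime (r : ℤ) := Nat.prime_iff_prime_int.1 hr
  have hMz : (0 : ℤ) < M := by exact_mod_cast hM
  have hrMz : ¬ (r : ℤ) ∣ M := by exact_mod_cast hrM
  have hrvz : ¬ (r : ℤ) ∣ v := by exact_mod_cast hrv
  have hr0 : (0 : ℤ) < r := by exact_mod_cast hr.pos
  have hN : 0 < N := by
    rw [hNe]
    exact Nat.mul_pos (Nat.mul_pos hM (Nat.pow_pos hr.pos)) (Nat.pow_pos hr.pos)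
  have hNz : (0 : ℤ) < N := by exact_mod_cast hN
  obtain ⟨P, hP⟩ : ∃ P : ℤ, P = M * r ^ f := ⟨_, rfl⟩
  obtain ⟨g, hg⟩ : ∃ g : ℤ, g = P * r ^ j := ⟨_, rfl⟩
  have hgN : (N : ℤ) = g * r := by
    rw [hNe, hg, hP]
    push_cast
    ring
  have hg0 : 0 < g := by
    rw [hg, hP]
    positivity
  obtain ⟨w, z, hwz⟩ := ((Prime.coprime_iff_not_dvd hrz).2 hrvz).symm
  -- w v + z r = 1
  have hrw : ¬ (r : ℤ) ∣ w := by
    rintro ⟨c, hc⟩
    apply hrz.not_isUnit
    refine isUnit_of_dvd_one ⟨c * v + z, ?_⟩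
    rw [← hwz, hc]
    ring
  obtain ⟨q, ρ, hρ0, hρ1, hq⟩ : ∃ q ρ : ℤ, 0 ≤ ρ ∧ ρ < g ∧ (t₀ : ℤ) * u = g * q + ρ :=
    ⟨(t₀ : ℤ) * u / g, (t₀ : ℤ) * u % g, Int.emod_nonneg _ hg0.ne', Int.emod_lt_of_pos _ hg0,
      (Int.mul_ediv_add_emod _ _).symm⟩
  have hrt₀ : ¬ (r : ℤ) ∣ t₀ := by
    intro h1
    have h2 : r ∣ t₀ := by exact_mod_cast h1
    have hrN : r ∣ N := by
      rw [hNe]
      exact ((dvd_pow_self r (Nat.succ_ne_zero f)).mul_left M).mul_right _
    have h6 := Nat.dvd_gcd h2 hrN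
    rw [Nat.Coprime.gcd_eq_one ht₀] at h6
    exact hr.one_lt.ne' (Nat.dvd_one.1 h6)
  have hcop : IsCoprime (t₀ : ℤ) M := by
    refine Nat.isCoprime_iff_coprime.2 (Nat.Coprime.coprime_dvd_right ?_ ht₀)
    rw [hNe, mul_assoc]
    exact Dvd.intro _ rfl
  -- the choice
  obtain ⟨s, hs, hrt⟩ : ∃ s : ℤ, (s = 0 ∨ s = 1) ∧ ¬ (r : ℤ) ∣ t₀ + P * (w * (s - q)) := by
    by_cases h0 : (r : ℤ) ∣ t₀ + P * (w * (0 - q))
    · refine ⟨1, Or.inr rfl, fun h1 => ?_⟩
      have h2 := h1.sub h0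
      rw [show (t₀ : ℤ) + P * (w * (1 - q)) - (t₀ + P * (w * (0 - q))) = P * w by ring] at h2
      have h3 : (r : ℤ) ∣ P := (hrz.dvd_or_dvd h2).resolve_right hrw
      have h4 := h0.sub (h3.mul_right (w * (0 - q)))
      rw [add_sub_cancel_right] at h4
      exact hrt₀ h4
    · exact ⟨0, Or.inl rfl, h0⟩
  obtain ⟨t, ht⟩ : ∃ t : ℤ, t = t₀ + P * (w * (s - q)) := ⟨_, rfl⟩
  rw [← ht] at hrt
  have htM : IsCoprime t (M : ℤ) := by
    rw [ht, hP, mul_assoc]
    exact hcop.add_mul_left_left _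
  obtain ⟨t', ht', hN'⟩ := to_nat hr hN (primes hr hNe) htM hrt
  refine ⟨t', ht', ?_, fun hW => h ?_⟩
  · have h1 : W A D N (ρ + g * s) := by
      have h4 : (4 : ℤ) * A < r := by exact_mod_cast hAr
      have h5 : (4 : ℤ) * A * g < r * g := mul_lt_mul_of_pos_right h4 hg0
      have hD1 : (1 : ℤ) ≤ D := by exact_mod_cast hD
      have h6 : 1 * (N : ℤ) ≤ D * N := mul_le_mul_of_nonneg_right hD1 hNz.le
      have hA0 : (0 : ℤ) < A := by
        have : 0 < A := by omega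
        exact_mod_cast this
      have h7 : (0 : ℤ) ≤ A * ρ := mul_nonneg hA0.le hρ0
      have h8 : (A : ℤ) * ρ ≤ A * g := mul_le_mul_of_nonneg_left hρ1.le hA0.le
      have h9 : 0 < (A : ℤ) * g := mul_pos hA0 hg0
      rw [hgN] at h6 ⊢
      refine ⟨0, ?_, ?_⟩
      · rcases hs with rfl | rfl
        · rw [zero_mul, sub_zero, mul_zero, add_zero]
          linarith
        · rw [zero_mul, sub_zero, mul_one, mul_add]
          linarith
      · rcases hs with rfl | rfl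
        · rw [zero_mul, sub_zero, mul_zero, add_zero]
          linarith
        · rw [zero_mul, sub_zero, mul_one, mul_add]
          linarith
    refine W_congr ?_ h1
    obtain ⟨c, hc⟩ := hN'
    have huz : (u : ℤ) = v * r ^ j := by rw [hu]; push_cast; ring
    refine ⟨z * (s - q) + c * u, ?_⟩
    push_cast
    have e1 : (t' : ℤ) * u = t * u - N * c * u := by linear_combination -(u : ℤ) * hc
    have e2 : t * u = (g * q + ρ) + g * (1 - z * r) * (s - q) := by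
      rw [ht, ← hq, ← hwz, hg]
      rw [huz]
      ring
    rw [e1, e2, hgN]
    ring
  · refine W_congr ?_ hW
    obtain ⟨c, hc⟩ := hN'
    obtain ⟨d, hd⟩ := hu'
    have hdz : (u' : ℤ) = r ^ (j + 1) * d := by rw [hd]; push_cast; ring
    refine ⟨-c * u' + w * (s - q) * d, ?_⟩
    push_cast
    have e1 : (t' : ℤ) * u' = t * u' - N * c * u' := by linear_combination -(u' : ℤ) * hc
    have e2 : t * u' = t₀ * u' + N * (w * (s - q) * d) := by
      rw [ht, hgN, hg, hdz]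
      ring
    rw [e1, e2]
    ring

/-- **The windows.** -/
theorem main {A D N u u' r r' : ℕ} (hr : r.Prime) (hr' : r'.Prime) (hD : 0 < D) (hDA : 4 * D ≤ A) (hAr : 4 * A < r)
    (hAr' : 4 * A < r') (h : r ∣ N / Nat.gcd u N) (h' : r' ∣ N / Nat.gcd u' N) (h1 : 2 * u < N) (h2 : 2 * u' < N)
    (hne : u ≠ u') : ∃ t : ℕ, Nat.Coprime t N ∧
      ((W A D N ((t * u : ℕ) : ℤ) ∧ ¬ W A D N ((t * u' : ℕ) : ℤ)) ∨
        (W A D N ((t * u' : ℕ) : ℤ) ∧ ¬ W A D N ((t * u : ℕ) : ℤ))) := by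
  have hN : 0 < N := by omega
  have hNz : (0 : ℤ) < N := by exact_mod_cast hN
  have hA : 0 < A := by omega
  have hAz : (0 : ℤ) < A := by exact_mod_cast hA
  obtain ⟨M, f, j, v, hf, hM, hrM, hrv, hNe, hu⟩ := decomp hr hN h
  have hu'0 : u' ≠ 0 := by
    rintro rfl
    rw [Nat.gcd_zero_left, Nat.div_self hN] at h'
    exact hr'.one_lt.ne' (Nat.dvd_one.1 h')
  obtain ⟨j', v', hv', huj'⟩ := Nat.exists_eq_pow_mul_and_not_dvd hu'0 r hr.one_lt.ne'
  -- far from zero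
  have far : ∀ (x p : ℕ), p.Prime → 4 * A < p → p ∣ N / Nat.gcd x N →
      ∃ t, Nat.Coprime t N ∧ ¬ W A D N ((t * x : ℕ) : ℤ) := by
    intro x p hp hAp hx
    obtain ⟨t, ht, h3, h4⟩ := asym (D := D) hp hA (by omega) (by omega) hN hx
    refine ⟨t, ht, fun hW => ?_⟩
    have h5 : W A D N ((t * x % N : ℕ) : ℤ) := by
      refine W_congr ?_ hW
      rw [Int.natCast_mod]
      exact ⟨((t * x : ℕ) : ℤ) / N, by have := Int.mul_ediv_add_emod ((t * x : ℕ) : ℤ) N; linarith⟩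
    refine not_W hNz hAz (by exact_mod_cast h3) ?_ h5
    have h6 : (A : ℤ) * ((t * x % N : ℕ) : ℤ) < (D + 1) * N := by exact_mod_cast h4
    have h7 : (2 * (D : ℤ) + 1) * N ≤ A * N := by
      refine mul_le_mul_of_nonneg_right ?_ hNz.le
      have : 2 * D + 1 ≤ A := by omega
      exact_mod_cast this
    linarith
  rcases lt_trichotomy j j' with hj | hj | hj
  · -- the level of `u'` is lower
    obtain ⟨t₀, ht₀, hW⟩ := far u' r' hr' hAr' h'
    obtain ⟨f', rfl⟩ : ∃ f', f = f' + 1 := ⟨f - 1, by omega⟩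
    obtain ⟨t, h3, h4, h5⟩ := diff hr hD hDA hAr hM hrM hrv hNe hu
      (by rw [huj']; exact (Nat.pow_dvd_pow r hj).mul_right _) ht₀ hW
    exact ⟨t, h3, Or.inl ⟨h4, h5⟩⟩
  · subst hj
    rw [mul_comm] at huj'
    have hrj : 0 < r ^ j := Nat.pow_pos hr.pos
    have h3 : 2 * v < M * r ^ f := by
      rw [hNe, hu, ← mul_assoc] at h1
      exact Nat.lt_of_mul_lt_mul_right h1
    have h4 : 2 * v' < M * r ^ f := by
      rw [hNe, huj', ← mul_assoc] at h2
      exact Nat.lt_of_mul_lt_mul_right h2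
    have hvv : v ≠ v' := by
      rintro rfl
      exact hne (by rw [hu, huj'])
    have hv0 : 0 < v := Nat.pos_of_ne_zero (by rintro rfl; simp at hrv)
    have hrz : Prime (r : ℤ) := Nat.prime_iff_prime_int.1 hr
    have h3z : 2 * (v : ℤ) < M * r ^ f := by exact_mod_cast h3
    have h4z : 2 * (v' : ℤ) < M * r ^ f := by exact_mod_cast h4
    obtain ⟨t, ht1, ht2, ht3, ht4⟩ := same (A := A) (D := D) (M := M) (r := r) (v := v) (v' := v') (f := f) hrz
      (by exact_mod_cast hAr) (by exact_mod_cast hM) (by exact_mod_cast hrM) (by exact_mod_cast hD)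
      (by exact_mod_cast hDA) hf (by exact_mod_cast hrv) (by exact_mod_cast hv')
      (fun h5 => by
        have h6 := Int.eq_zero_of_abs_lt_dvd h5 (by rw [abs_lt]; constructor <;> linarith [(Int.natCast_nonneg v), (Int.natCast_nonneg v')])
        omega)
      (fun h5 => by
        have h6 := Int.le_of_dvd (by omega) h5
        linarith)
    obtain ⟨t', ht', hN'⟩ := to_nat hr hN (primes hr hNe) ht1 ht2
    refine ⟨t', ht', Or.inl ⟨?_, fun hW => ht4 ?_⟩⟩
    · have h5 := (W_scale (A := A) (D := D) (N := M * r ^ f) (s := t * v) (R := (r : ℤ) ^ j) (by exact_mod_cast hrj)).2 ht3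
      have e : ((M : ℤ) * r ^ f) * r ^ j = N := by rw [hNe]; push_cast; ring
      rw [e] at h5
      refine W_congr ?_ h5
      have e1 : t * v * (r : ℤ) ^ j - ((t' * u : ℕ) : ℤ) = (t - t') * (v * r ^ j) := by
        rw [hu]
        push_cast
        ring
      rw [e1]
      exact hN'.mul_right _
    · refine (W_scale (R := (r : ℤ) ^ j) (by exact_mod_cast hrj)).1 ?_
      have e : ((M : ℤ) * r ^ f) * r ^ j = N := by rw [hNe]; push_cast; ring
      rw [e]
      refine W_congr ?_ hW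
      have e1 : ((t' * u' : ℕ) : ℤ) - t * v' * (r : ℤ) ^ j = -((t - t') * (v' * r ^ j)) := by
        rw [huj']
        push_cast
        ring
      rw [e1]
      exact (hN'.mul_right _).neg_right
  · -- the level of `u` is lower
    obtain ⟨t₀, ht₀, hW⟩ := far u r hr hAr h
    obtain ⟨i, rfl⟩ : ∃ i, j = j' + 1 + i := ⟨j - j' - 1, by omega⟩
    obtain ⟨t, h3, h4, h5⟩ := diff (f := f + i) (j := j') (u := u') (u' := u) (v := v') hr hD hDA hAr hM hrM hv'
      (by rw [hNe, mul_assoc, mul_assoc, ← pow_add, ← pow_add]; congr 2; omega) (by rw [huj', mul_comm])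
      (by rw [hu, pow_add]; exact Dvd.intro_left (v * r ^ i) (by ring)) ht₀ hW
    exact ⟨t, h3, Or.inr ⟨h4, h5⟩⟩

end Pool.Agent.Helper43.TN
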