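import Pool.Agent.Helper43.TN.Win

/-! Windows, second part. -/

set_option autoImplicit false

namespace Pool.Agent.Helper43.TN

/-- a unit far from zero -/
theorem unit0 {m : ℕ} (hm : 2 ≤ m) : ∃ s : ℕ, Nat.Coprime s m ∧ m ≤ 6 * s ∧ 2 * s ≤ m := by
  rcases Nat.even_or_odd' m with ⟨k, hk | hk⟩
  · rcases Nat.even_or_odd' k with ⟨l, hl | hl⟩
    · -- m = 4 l
      have hl0 : 0 < l := by omega
      refine ⟨2 * l - 1, ?_, by omega, by omega⟩
      have h1 : Nat.Coprime (2 * l - 1) (2 * l) := by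
        have := (Nat.coprime_self_add_right (m := 2 * l - 1) (n := 1)).2 (Nat.coprime_one_right _)
        rwa [Nat.sub_add_cancel (by omega)] at this
      have h2 : Nat.Coprime (2 * l - 1) 2 := (Nat.coprime_mul_iff_right.1 h1).1
      rw [hk, hl]
      exact Nat.Coprime.mul_right h2 h1
    · -- m = 2 (2 l + 1)
      rcases Nat.eq_zero_or_pos l with h0 | h0
      · subst h0
        refine ⟨1, Nat.coprime_one_left _, by omega, by omega⟩
      · refine ⟨2 * l - 1, ?_, by omega, by omega⟩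
        have h2 : Nat.Coprime (2 * l - 1) 2 := by
          rw [Nat.coprime_two_right]
          exact ⟨l - 1, by omega⟩
        have h1 : Nat.Coprime (2 * l - 1) (2 * l + 1) := by
          have := (Nat.coprime_self_add_right (m := 2 * l - 1) (n := 2)).2 h2
          rwa [show 2 * l - 1 + 2 = 2 * l + 1 by omega] at this
        rw [hk, hl]
        exact Nat.Coprime.mul_right h2 h1
  · -- m = 2 k + 1
    refine ⟨k, ?_, by omega, by omega⟩
    rw [hk, two_mul, add_assoc]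
    exact (Nat.coprime_self_add_right).2 ((Nat.coprime_self_add_right).2 (Nat.coprime_one_right _))

theorem exists_unit {M δ₁ : ℤ} (hM : 0 < M) (h : ¬ M ∣ δ₁) :
    ∃ t₀ δ, IsCoprime t₀ M ∧ M ∣ t₀ * δ₁ - δ ∧ M ≤ 6 * δ ∧ 2 * δ ≤ M := by
  obtain ⟨m, rfl⟩ : ∃ m : ℕ, M = m := ⟨M.toNat, (Int.toNat_of_nonneg hM.le).symm⟩
  have hm : 0 < m := by exact_mod_cast hM
  have : NeZero m := ⟨hm.ne'⟩
  obtain ⟨g, hg⟩ : ∃ g, g = Int.gcd δ₁ m := ⟨_, rfl⟩
  have hg0 : 0 < g := by rw [hg]; exact Int.gcd_pos_of_ne_zero_right _ (by omega)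
  obtain ⟨m', hm'⟩ : g ∣ m := by rw [hg]; exact_mod_cast Int.gcd_dvd_right δ₁ (m : ℤ)
  obtain ⟨d, hd⟩ : (g : ℤ) ∣ δ₁ := by rw [hg]; exact Int.gcd_dvd_left δ₁ (m : ℤ)
  have hm'0 : 0 < m' := Nat.pos_of_ne_zero (by rintro rfl; simp at hm'; omega)
  have hm'1 : 2 ≤ m' := by
    by_contra h1
    have : m' = 1 := by omega
    subst this
    apply h
    rw [hm', mul_one]
    exact ⟨d, hd⟩
  have hcop : IsCoprime d (m' : ℤ) := by
    rw [Int.isCoprime_iff_gcd_eq_one]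
    have h1 : Int.gcd (g * d) (g * m') = g * Int.gcd d m' := by
      rw [Int.gcd_mul_left]
      simp
    have h2 : Int.gcd (g * d) (g * m') = g := by
      conv_rhs => rw [hg]
      rw [hd, hm']
      push_cast
      rfl
    rw [h1] at h2
    exact Nat.eq_of_mul_eq_mul_left hg0 (by rw [h2, mul_one])
  obtain ⟨s, hs1, hs2, hs3⟩ := unit0 hm'1
  obtain ⟨a, b, hab⟩ := hcop
  -- a d = 1 mod m'
  have hdm : m' ∣ m := ⟨g, by rw [hm', mul_comm]⟩
  have hu : IsUnit (((s : ℤ) * a : ℤ) : ZMod m') := by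
    have h1 : IsCoprime ((s : ℤ) * a) (m' : ℤ) := by
      refine IsCoprime.mul_left (Nat.isCoprime_iff_coprime.2 hs1) ⟨d, b, ?_⟩
      linarith
    exact (ZMod.coe_int_isUnit_iff_isCoprime _ _).2 h1.symm
  obtain ⟨U, hU⟩ := ZMod.unitsMap_surjective hdm hu.unit
  have hU' : ((((U : ZMod m).val : ℕ) : ℤ) : ZMod m') = (((s : ℤ) * a : ℤ) : ZMod m') := by
    have h1 := congrArg Units.val hU
    rw [ZMod.unitsMap_val, IsUnit.unit_spec] at h1
    rw [← h1, Int.cast_natCast, ZMod.natCast_val]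
  obtain ⟨c, hc⟩ := (ZMod.intCast_eq_intCast_iff_dvd_sub _ _ _).1 hU'.symm
  refine ⟨((U : ZMod m).val : ℕ), g * s, ?_, ?_, ?_, ?_⟩
  · refine ((ZMod.coe_int_isUnit_iff_isCoprime _ _).1 ?_).symm
    rw [Int.cast_natCast, ZMod.natCast_zmod_val]
    exact U.isUnit
  · refine ⟨c * d - s * b, ?_⟩
    have hmz : (m : ℤ) = g * m' := by exact_mod_cast hm'
    rw [hd]
    linear_combination (g : ℤ) * d * hc + (g : ℤ) * s * hab - (c * d - s * b) * hmz
  · have hmz : (m : ℤ) = g * m' := by exact_mod_cast hm'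
    have : (m' : ℤ) ≤ 6 * s := by exact_mod_cast hs2
    nlinarith
  · have hmz : (m : ℤ) = g * m' := by exact_mod_cast hm'
    have : 2 * (s : ℤ) ≤ m' := by exact_mod_cast hs3
    nlinarith

/-- the same level -/
theorem same {A D M r v v' : ℤ} {f : ℕ} (hr : Prime r) (hr1 : 4 * A < r) (hM : 0 < M) (hrM : ¬ r ∣ M) (hD : 0 < D)
    (hDA : 4 * D ≤ A) (hf : 0 < f) (hv : ¬ r ∣ v) (hv' : ¬ r ∣ v') (h1 : ¬ M * r ^ f ∣ v' - v)
    (h2 : ¬ M * r ^ f ∣ v' + v) :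
    ∃ t, IsCoprime t M ∧ ¬ r ∣ t ∧ W A D (M * r ^ f) (t * v) ∧ ¬ W A D (M * r ^ f) (t * v') := by
  have hr0 : 1 < r := by omega
  obtain ⟨Q, hQd⟩ : ∃ Q, Q = r ^ f := ⟨_, rfl⟩
  have hrQ : r ∣ Q := by rw [hQd]; exact dvd_pow_self r hf.ne'
  have hQr : r ≤ Q := by
    rw [hQd]
    calc r = r ^ 1 := (pow_one r).symm
      _ ≤ r ^ f := pow_le_pow_right₀ (by omega) hf
  have hcopr : ∀ x : ℤ, ¬ r ∣ x → IsCoprime x Q := by
    intro x hx
    rw [hQd]
    exact (IsCoprime.pow_right ((Prime.coprime_iff_not_dvd hr).2 hx).symm)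
  have hodd : ¬ (2 : ℤ) ∣ Q := by
    intro h
    have h3 := hcopr 2 (fun h => by have := Int.le_of_dvd (by norm_num) h; omega)
    have h4 : IsUnit (2 : ℤ) := h3.isUnit_of_dvd' dvd_rfl h
    rw [Int.isUnit_iff] at h4
    omega
  rw [← hQd] at h1 h2 ⊢
  -- the ratio
  obtain ⟨w, z, hwz⟩ := hcopr v hv
  obtain ⟨κ, hκ, hκ1, hκ2⟩ : ∃ κ : ℤ, Q ∣ κ * v - v' ∧ -Q < 2 * κ ∧ 2 * κ < Q := by
    have hQ0 : 0 < Q := by omega
    have h3 := Int.emod_nonneg (w * v') hQ0.ne'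
    have h4 := Int.emod_lt_of_pos (w * v') hQ0
    have h5 := Int.mul_ediv_add_emod (w * v') Q
    have h6 : Q ∣ (w * v' % Q) * v - v' := by
      refine ⟨-(w * v' / Q) * v - z * v', ?_⟩
      linear_combination v * h5 + v' * hwz
    by_cases h7 : 2 * (w * v' % Q) < Q
    · exact ⟨w * v' % Q, h6, by omega, h7⟩
    · refine ⟨w * v' % Q - Q, ?_, ?_, by omega⟩
      · have e : (w * v' % Q - Q) * v - v' = (w * v' % Q) * v - v' - Q * v := by ring
        rw [e]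
        exact h6.sub (Dvd.intro _ rfl)
      · have : 2 * (w * v' % Q) ≠ Q := fun h => hodd ⟨_, h.symm⟩
        omega
  -- positive ratio
  have key : ∀ (v' κ : ℤ), ¬ M * Q ∣ v' - v → Q ∣ κ * v - v' → 0 < κ → 2 * κ < Q →
      ∃ t, IsCoprime t M ∧ ¬ r ∣ t ∧ W A D (M * Q) (t * v) ∧ ¬ W A D (M * Q) (t * v') := by
    intro v' κ h1 hκ hκ0 hκ2
    have hMQ : IsCoprime M Q := hcopr M hrM
    rcases (by omega : κ = 1 ∨ 2 ≤ κ) with rfl | hκ3
    · -- the step one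
      obtain ⟨δ₁, hδ₁⟩ := hκ
      have h3 : ¬ M ∣ -δ₁ := by
        rintro ⟨c, hc⟩
        apply h1
        refine ⟨c, ?_⟩
        linear_combination -hδ₁ + Q * hc
      obtain ⟨t₀, δ, ht₀, ⟨c, hc⟩, hδ1, hδ2⟩ := exists_unit hM h3
      obtain ⟨i, hi, hW, hW'⟩ := caseC (x₀ := t₀ * v) hr hr0 hM hrM hD hDA (by omega : 4 * A < Q) hδ1 hδ2
      obtain ⟨t, ht1, ht2, ht3, ht4⟩ := exists_t (κ := 1) (v' := v') hMQ hrQ ht₀ (hcopr v hv) ⟨δ₁, hδ₁⟩ hi
      refine ⟨t, ht1, ht2, W_congr ?_ hW, fun h => hW' (W_congr ?_ h)⟩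
      · rw [← neg_sub]
        exact ht3.neg_right
      · have e : t * v' - (t₀ * v + M * i + δ * Q) = (t * v' - (t₀ * v' + 1 * M * i)) + M * Q * c := by
          linear_combination t₀ * (-hδ₁) + Q * hc
        rw [e]
        exact ht4.add (Dvd.intro _ rfl)
    · have h4 : ∃ i, ¬ r ∣ 1 * v + M * i ∧ W A D (M * Q) (1 * v + M * i) ∧ ¬ W A D (M * Q) (1 * v' + κ * M * i) := by
        rcases (by omega : 4 * κ ≤ Q ∨ Q < 4 * κ) with h5 | h5
        · exact caseA hr hr0 hM hrM hD hDA (by omega) hκ3 h5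
        · exact caseB hr (by omega) hM hrM hD hDA (by omega) h5 hκ2
      obtain ⟨i, hi, hW, hW'⟩ := h4
      obtain ⟨t, ht1, ht2, ht3, ht4⟩ := exists_t (κ := κ) (v' := v') hMQ hrQ isCoprime_one_left (hcopr v hv) hκ hi
      refine ⟨t, ht1, ht2, W_congr ?_ hW, fun h => hW' (W_congr ht4 h)⟩
      rw [← neg_sub]
      exact ht3.neg_right
  have hκ0 : κ ≠ 0 := by
    rintro rfl
    rw [zero_mul, zero_sub, dvd_neg] at hκ
    exact hv' (hrQ.trans hκ)
  rcases lt_or_gt_of_ne hκ0 with h | h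
  · obtain ⟨t, ht1, ht2, ht3, ht4⟩ := key (-v') (-κ) (fun h3 => h2 (by
        rw [← neg_sub, sub_neg_eq_add, add_comm] at h3
        exact (dvd_neg.1 h3))) (by
        rw [show -κ * v - -v' = -(κ * v - v') by ring]
        exact hκ.neg_right) (by omega) (by omega)
    refine ⟨t, ht1, ht2, ht3, fun h5 => ht4 ?_⟩
    rw [mul_neg]
    exact W_neg h5
  · exact key v' κ h1 hκ h hκ2

end Pool.Agent.Helper43.TN
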