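import Mathlib

/-!
Windows on a circle: for two different characters (up to sign) of order divisible by a large prime there is a Galois conjugate
such that exactly one of them is near zero.
-/

set_option autoImplicit false

namespace Pool.Agent.Helper43.TN

/-- `s` is near `0` modulo `N`. -/
def W (A D N s : ℤ) : Prop := ∃ k : ℤ, -(D * N) < A * (s - k * N) ∧ A * (s - k * N) < D * N

theorem W_congr {A D N s s' : ℤ} (h : N ∣ s - s') (hs : W A D N s) : W A D N s' := by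
  obtain ⟨c, hc⟩ := h
  obtain ⟨k, h1, h2⟩ := hs
  refine ⟨k - c, ?_, ?_⟩
  · rw [show s' - (k - c) * N = s - k * N by linear_combination -hc]
    exact h1
  · rw [show s' - (k - c) * N = s - k * N by linear_combination -hc]
    exact h2

theorem W_neg {A D N s : ℤ} (hs : W A D N s) : W A D N (-s) := by
  obtain ⟨k, h1, h2⟩ := hs
  refine ⟨-k, ?_, ?_⟩
  · rw [show -s - -k * N = -(s - k * N) by ring]
    linarith
  · rw [show -s - -k * N = -(s - k * N) by ring]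
    linarith

/-- far from zero -/
theorem not_W {A D N s : ℤ} (hN : 0 < N) (hA : 0 < A) (h1 : D * N ≤ A * s) (h2 : A * s ≤ A * N - D * N) :
    ¬ W A D N s := by
  rintro ⟨k, h3, h4⟩
  have hAN : 0 < A * N := mul_pos hA hN
  rcases le_or_gt k 0 with hk | hk
  · have : A * N * k ≤ 0 := mul_nonpos_of_nonneg_of_nonpos hAN.le hk
    nlinarith
  · have : A * N * 1 ≤ A * N * k := mul_le_mul_of_nonneg_left hk hAN.le
    nlinarith

/-- The conjugates. -/
theorem exists_t {M Q r t₀ v v' κ i : ℤ} (hMQ : IsCoprime M Q) (hrQ : r ∣ Q) (ht₀ : IsCoprime t₀ M)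
    (hv : IsCoprime v Q) (hκ : Q ∣ κ * v - v') (hx : ¬ r ∣ t₀ * v + M * i) :
    ∃ t, IsCoprime t M ∧ ¬ r ∣ t ∧ M * Q ∣ t * v - (t₀ * v + M * i) ∧ M * Q ∣ t * v' - (t₀ * v' + κ * M * i) := by
  obtain ⟨a, b, hab⟩ := hMQ
  obtain ⟨w, z, hwz⟩ := hv
  obtain ⟨c, hc⟩ := hκ
  obtain ⟨x, hxd⟩ : ∃ x, x = t₀ * v + M * i := ⟨_, rfl⟩
  obtain ⟨t, ht⟩ : ∃ t, t = t₀ + M * (a * (w * x - t₀)) := ⟨_, rfl⟩
  have h1 : t - w * x = Q * (b * (t₀ - w * x)) := by
    rw [ht]
    linear_combination (t₀ - w * x) * hab.symm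
  have hM1 : M ∣ t * v - (t₀ * v + M * i) := ⟨a * (w * x - t₀) * v - i, by rw [ht]; ring⟩
  have hQ1 : Q ∣ t * v - (t₀ * v + M * i) := by
    refine ⟨b * (t₀ - w * x) * v - z * x, ?_⟩
    rw [← hxd]
    linear_combination v * h1 + x * hwz
  have hM2 : M ∣ t * v' - (t₀ * v' + κ * M * i) := ⟨a * (w * x - t₀) * v' - κ * i, by rw [ht]; ring⟩
  have hQ2 : Q ∣ t * v' - (t₀ * v' + κ * M * i) := by
    have e : t * v' - (t₀ * v' + κ * M * i) = κ * (t * v - (t₀ * v + M * i)) - Q * ((t - t₀) * c) := by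
      linear_combination -(t - t₀) * hc
    rw [e]
    exact (hQ1.mul_left κ).sub (Dvd.intro _ rfl)
  refine ⟨t, ?_, ?_, IsCoprime.mul_dvd ⟨a, b, hab⟩ hM1 hQ1, IsCoprime.mul_dvd ⟨a, b, hab⟩ hM2 hQ2⟩
  · rw [ht]
    exact ht₀.add_mul_left_left _
  · intro h
    apply hx
    have h2 := (h.mul_right v).sub (hrQ.trans hQ1)
    rwa [sub_sub_cancel] at h2

/-- allowed indices -/
theorem allowed {r M x i d : ℤ} (hr : Prime r) (hM : ¬ r ∣ M) (h : r ∣ x + M * i) (hd : 0 < d) (hdr : d < r) :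
    ¬ r ∣ x + M * (i + d) := by
  intro h'
  have h1 := h'.sub h
  rw [show x + M * (i + d) - (x + M * i) = M * d by ring] at h1
  rcases hr.dvd_or_dvd h1 with h2 | h2
  · exact hM h2
  · have := Int.le_of_dvd hd h2
    omega

theorem allowed2 {r M x : ℤ} (hr : Prime r) (hr1 : 1 < r) (hM : ¬ r ∣ M) (i : ℤ) :
    ¬ r ∣ x + M * i ∨ ¬ r ∣ x + M * (i + 1) := by
  by_cases h : r ∣ x + M * i
  · exact Or.inr (allowed hr hM h one_pos hr1)
  · exact Or.inl h

theorem allowed3 {r M x : ℤ} (hr : Prime r) (hr1 : 4 < r) (hM : ¬ r ∣ M) (i : ℤ) :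
    ∃ s, 0 ≤ s ∧ s ≤ 3 ∧ ¬ r ∣ x + M * (i + s) ∧ ¬ r ∣ x + M * (i + s + 1) ∧ ¬ r ∣ x + M * (i + s + 2) := by
  by_cases h0 : r ∣ x + M * i
  · refine ⟨1, by norm_num, by norm_num, allowed hr hM h0 (by norm_num) (by omega), ?_, ?_⟩
    · rw [add_assoc]
      exact allowed hr hM h0 (by norm_num) (by omega)
    · rw [add_assoc]
      exact allowed hr hM h0 (by norm_num) (by omega)
  by_cases h1 : r ∣ x + M * (i + 1)
  · refine ⟨2, by norm_num, by norm_num, ?_, ?_, ?_⟩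
    · rw [show i + 2 = i + 1 + 1 by ring]
      exact allowed hr hM h1 (by norm_num) (by omega)
    · rw [show i + 2 + 1 = i + 1 + 2 by ring]
      exact allowed hr hM h1 (by norm_num) (by omega)
    · rw [show i + 2 + 2 = i + 1 + 3 by ring]
      exact allowed hr hM h1 (by norm_num) (by omega)
  by_cases h2 : r ∣ x + M * (i + 2)
  · refine ⟨3, by norm_num, by norm_num, ?_, ?_, ?_⟩
    · rw [show i + 3 = i + 2 + 1 by ring]
      exact allowed hr hM h2 (by norm_num) (by omega)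
    · rw [show i + 3 + 1 = i + 2 + 2 by ring]
      exact allowed hr hM h2 (by norm_num) (by omega)
    · rw [show i + 3 + 2 = i + 2 + 3 by ring]
      exact allowed hr hM h2 (by norm_num) (by omega)
  · refine ⟨0, le_rfl, by norm_num, ?_, ?_, ?_⟩
    · rwa [add_zero]
    · rwa [add_zero]
    · rwa [add_zero]

/-- the least index with `c < m * i` -/
theorem least {m : ℤ} (hm : 0 < m) (c : ℤ) : ∃ a, m * (a - 1) ≤ c ∧ c < m * a := by
  refine ⟨c / m + 1, ?_, ?_⟩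
  · rw [add_sub_cancel_right]
    exact Int.mul_ediv_self_le hm.ne'
  · have := Int.lt_mul_ediv_self_add hm (x := c)
    rw [mul_add, mul_one]
    exact this

/-- small steps -/
theorem caseA {A D M Q r κ x₀ y₀ : ℤ} (hr : Prime r) (hr1 : 1 < r) (hM : 0 < M) (hrM : ¬ r ∣ M) (hD : 0 < D)
    (hDA : 4 * D ≤ A) (hQ : 4 * A < Q) (hκ : 2 ≤ κ) (hκQ : 4 * κ ≤ Q) :
    ∃ i, ¬ r ∣ x₀ + M * i ∧ W A D (M * Q) (x₀ + M * i) ∧ ¬ W A D (M * Q) (y₀ + κ * M * i) := by
  have hA : 0 < A := by omega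
  have hQ0 : 0 < Q := by omega
  have hAM : 0 < A * M := mul_pos hA hM
  have hN : 0 < M * Q := mul_pos hM hQ0
  obtain ⟨N, hNd⟩ : ∃ N, N = M * Q := ⟨_, rfl⟩
  rw [← hNd] at hN ⊢
  have hAN : 4 * (D * N) ≤ A * N := by nlinarith
  have hAM4 : 4 * (A * M) < D * N := by
    have h1 : 4 * A * M < Q * M := mul_lt_mul_of_pos_right hQ hM
    have h2 : 1 * (M * Q) ≤ D * (M * Q) := mul_le_mul_of_nonneg_right hD (by positivity)
    rw [hNd]
    linarith
  have hκN : 4 * (A * (κ * M)) ≤ A * N := by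
    have h1 : 4 * κ * M ≤ Q * M := mul_le_mul_of_nonneg_right hκQ hM.le
    have h2 : A * (4 * κ * M) ≤ A * (Q * M) := mul_le_mul_of_nonneg_left h1 hA.le
    rw [hNd]
    linarith
  have hκM : 2 * (A * M) ≤ A * (κ * M) := by
    have h2 : A * (2 * M) ≤ A * (κ * M) := mul_le_mul_of_nonneg_left (mul_le_mul_of_nonneg_right hκ hM.le) hA.le
    linarith
  obtain ⟨a, ha1, ha2⟩ := least hAM (-(D * N) - A * x₀)
  obtain ⟨a', ha', hp⟩ : ∃ a', (a' = a ∨ a' = a + 1) ∧ ¬ r ∣ x₀ + M * a' := by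
    rcases allowed2 hr hr1 hrM (x := x₀) a with h | h
    · exact ⟨a, Or.inl rfl, h⟩
    · exact ⟨a + 1, Or.inr rfl, h⟩
  -- positions
  have pos : ∀ s : ℤ, 0 ≤ s → A * M * s < 2 * (D * N) - A * M → W A D N (x₀ + M * (a + s)) := by
    intro s hs h
    refine ⟨0, ?_, ?_⟩
    · nlinarith
    · nlinarith
  have haW : W A D N (x₀ + M * a') := by
    rcases ha' with h | h
    · have := pos 0 le_rfl (by rw [mul_zero]; linarith)
      rwa [add_zero, ← h] at this
    · have := pos 1 (by norm_num) (by rw [mul_one]; linarith)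
      rwa [← h] at this
  by_cases hy : W A D N (y₀ + κ * M * a')
  swap
  · exact ⟨a', hp, haW, hy⟩
  obtain ⟨k, hk1, hk2⟩ := hy
  obtain ⟨P, hP⟩ : ∃ P, P = y₀ + κ * M * a' - k * N := ⟨_, rfl⟩
  rw [← hP] at hk1 hk2
  have hAκM : 0 < A * (κ * M) := by linarith
  -- first exit
  obtain ⟨j, hj1, hj2⟩ := least hAκM (D * N - A * P - 1)
  have hj0 : 1 ≤ j := by
    by_contra h
    push Not at h
    have h1 : A * (κ * M) * j ≤ 0 := mul_nonpos_of_nonneg_of_nonpos hAκM.le (by omega)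
    linarith
  have hj3 : 2 * (A * M) * (j - 1) ≤ A * (κ * M) * (j - 1) := mul_le_mul_of_nonneg_right hκM (by omega)
  have bad : ∀ s, 0 ≤ s → s ≤ 1 → ¬ W A D N (y₀ + κ * M * (a' + j + s)) := by
    intro s hs0 hs1 hW
    have h1 : W A D N (P + κ * M * (j + s)) := by
      refine W_congr ⟨k, ?_⟩ hW
      rw [hP]
      ring
    refine not_W hN hA ?_ ?_ h1
    · have h2 : 0 ≤ A * (κ * M) * s := mul_nonneg hAκM.le hs0
      have e : A * (P + κ * M * (j + s)) = A * P + A * (κ * M) * j + A * (κ * M) * s := by ring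
      rw [e]
      linarith
    · have h2 : A * (κ * M) * s ≤ A * (κ * M) * 1 := mul_le_mul_of_nonneg_left hs1 hAκM.le
      have e : A * (P + κ * M * (j + s)) = A * P + A * (κ * M) * (j - 1) + A * (κ * M) * s + A * (κ * M) := by ring
      rw [e]
      linarith
  have good : ∀ s, 0 ≤ s → s ≤ 1 → W A D N (x₀ + M * (a' + j + s)) := by
    intro s hs0 hs1
    obtain ⟨d, hd0, hd1, hd⟩ : ∃ d, 0 ≤ d ∧ d ≤ 1 ∧ a' = a + d := by
      rcases ha' with h | h
      · exact ⟨0, le_rfl, by norm_num, by rw [h, add_zero]⟩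
      · exact ⟨1, by norm_num, le_rfl, h⟩
    rw [hd, show a + d + j + s = a + (d + j + s) by ring]
    refine pos _ (by omega) ?_
    have h1 : A * M * (d + s) ≤ A * M * 2 := mul_le_mul_of_nonneg_left (by omega) hAM.le
    have e : A * M * (d + j + s) = A * M * (j - 1) + A * M * (d + s) + A * M := by ring
    rw [e]
    nlinarith
  rcases allowed2 hr hr1 hrM (x := x₀) (a' + j) with h | h
  · exact ⟨a' + j, h, by have := good 0 le_rfl (by norm_num); rwa [add_zero] at this,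
      by have := bad 0 le_rfl (by norm_num); rwa [add_zero] at this⟩
  · exact ⟨a' + j + 1, h, good 1 (by norm_num) le_rfl, bad 1 (by norm_num) le_rfl⟩

/-- large steps -/
theorem caseB {A D M Q r κ x₀ y₀ : ℤ} (hr : Prime r) (hr1 : 4 < r) (hM : 0 < M) (hrM : ¬ r ∣ M) (hD : 0 < D)
    (hDA : 4 * D ≤ A) (hQ : 4 * A < Q) (hκ : Q < 4 * κ) (hκQ : 2 * κ < Q) :
    ∃ i, ¬ r ∣ x₀ + M * i ∧ W A D (M * Q) (x₀ + M * i) ∧ ¬ W A D (M * Q) (y₀ + κ * M * i) := by
  have hA : 0 < A := by omega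
  have hQ0 : 0 < Q := by omega
  have hAM : 0 < A * M := mul_pos hA hM
  have hN : 0 < M * Q := mul_pos hM hQ0
  obtain ⟨N, hNd⟩ : ∃ N, N = M * Q := ⟨_, rfl⟩
  rw [← hNd] at hN ⊢
  have hAN : 4 * (D * N) ≤ A * N := by nlinarith
  have hAM4 : 4 * (A * M) < D * N := by
    have h1 : 4 * A * M < Q * M := mul_lt_mul_of_pos_right hQ hM
    have h2 : 1 * (M * Q) ≤ D * (M * Q) := mul_le_mul_of_nonneg_right hD (by positivity)
    rw [hNd]
    linarith
  have hκN : A * N < 4 * (A * (κ * M)) := by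
    have h1 : Q * M < 4 * κ * M := mul_lt_mul_of_pos_right hκ hM
    have h2 : A * (Q * M) < A * (4 * κ * M) := mul_lt_mul_of_pos_left h1 hA
    rw [hNd]
    linarith
  have hκN2 : 2 * (A * (κ * M)) < A * N := by
    have h1 : 2 * κ * M < Q * M := mul_lt_mul_of_pos_right hκQ hM
    have h2 : A * (2 * κ * M) < A * (Q * M) := mul_lt_mul_of_pos_left h1 hA
    rw [hNd]
    linarith
  obtain ⟨a, ha1, ha2⟩ := least hAM (-(D * N) - A * x₀)
  have pos : ∀ s : ℤ, 0 ≤ s → A * M * s < 2 * (D * N) - A * M → W A D N (x₀ + M * (a + s)) := by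
    intro s hs h
    refine ⟨0, ?_, ?_⟩
    · nlinarith
    · nlinarith
  obtain ⟨s, hs0, hs3, hp0, hp1, hp2⟩ := allowed3 hr hr1 hrM (x := x₀) a
  have good : ∀ d, 0 ≤ d → d ≤ 2 → W A D N (x₀ + M * (a + s + d)) := by
    intro d hd0 hd2
    rw [show a + s + d = a + (s + d) by ring]
    refine pos _ (by omega) ?_
    have h1 : A * M * (s + d) ≤ A * M * 5 := mul_le_mul_of_nonneg_left (by omega) hAM.le
    linarith
  by_cases h0 : W A D N (y₀ + κ * M * (a + s))
  swap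
  · exact ⟨a + s, hp0, by have := good 0 le_rfl (by norm_num); rwa [add_zero] at this, h0⟩
  by_cases h1 : W A D N (y₀ + κ * M * (a + s + 1))
  swap
  · exact ⟨a + s + 1, hp1, good 1 (by norm_num) (by norm_num), h1⟩
  refine ⟨a + s + 2, hp2, good 2 (by norm_num) le_rfl, fun h2 => ?_⟩
  obtain ⟨k, hk1, hk2⟩ := h0
  obtain ⟨P, hP⟩ : ∃ P, P = y₀ + κ * M * (a + s) - k * N := ⟨_, rfl⟩
  rw [← hP] at hk1 hk2
  have h1' : W A D N (P + κ * M) := by
    refine W_congr ⟨k, ?_⟩ h1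
    rw [hP]
    ring
  have h2' : W A D N (P + κ * M + κ * M) := by
    refine W_congr ⟨k, ?_⟩ h2
    rw [hP]
    ring
  have h3 : A * (P + κ * M) < D * N := by
    by_contra h
    push Not at h
    refine not_W hN hA h ?_ h1'
    rw [mul_add]
    linarith
  refine not_W hN hA ?_ ?_ h2'
  · rw [mul_add, mul_add]
    linarith
  · rw [mul_add]
    linarith

/-- the step one -/
theorem caseC {A D M Q r δ x₀ : ℤ} (hr : Prime r) (hr1 : 1 < r) (hM : 0 < M) (hrM : ¬ r ∣ M) (hD : 0 < D)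
    (hDA : 4 * D ≤ A) (hQ : 4 * A < Q) (hδ : M ≤ 6 * δ) (hδ2 : 2 * δ ≤ M) :
    ∃ i, ¬ r ∣ x₀ + M * i ∧ W A D (M * Q) (x₀ + M * i) ∧ ¬ W A D (M * Q) (x₀ + M * i + δ * Q) := by
  have hA : 0 < A := by omega
  have hQ0 : 0 < Q := by omega
  have hAM : 0 < A * M := mul_pos hA hM
  have hN : 0 < M * Q := mul_pos hM hQ0
  obtain ⟨N, hNd⟩ : ∃ N, N = M * Q := ⟨_, rfl⟩
  rw [← hNd] at hN ⊢
  have hAN : 4 * (D * N) ≤ A * N := by nlinarith
  have hAM4 : 4 * (A * M) < D * N := by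
    have h1 : 4 * A * M < Q * M := mul_lt_mul_of_pos_right hQ hM
    have h2 : 1 * (M * Q) ≤ D * (M * Q) := mul_le_mul_of_nonneg_right hD (by positivity)
    rw [hNd]
    linarith
  -- the last index
  obtain ⟨b, hb1, hb2⟩ := least hAM (D * N - A * x₀ - 1)
  have good : ∀ s, 1 ≤ s → s ≤ 2 → W A D N (x₀ + M * (b - s)) ∧ ¬ W A D N (x₀ + M * (b - s) + δ * Q) := by
    intro s hs1 hs2
    have h1 : A * M * s ≤ A * M * 2 := mul_le_mul_of_nonneg_left hs2 hAM.le
    have h2 : A * M * 1 ≤ A * M * s := mul_le_mul_of_nonneg_left hs1 hAM.le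
    have e : A * (x₀ + M * (b - s)) = A * x₀ + A * M * b - A * M * s := by ring
    have e' : A * M * (b - 1) = A * M * b - A * M := by ring
    rw [e'] at hb1
    constructor
    · refine ⟨0, ?_, ?_⟩
      · rw [zero_mul, sub_zero, e]
        linarith
      · rw [zero_mul, sub_zero, e]
        linarith
    · have h3 : M * Q ≤ 6 * δ * Q := mul_le_mul_of_nonneg_right hδ hQ0.le
      have h4 : 2 * δ * Q ≤ M * Q := mul_le_mul_of_nonneg_right hδ2 hQ0.le
      have h5 : A * (M * Q) ≤ A * (6 * δ * Q) := mul_le_mul_of_nonneg_left h3 hA.le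
      have h6 : A * (2 * δ * Q) ≤ A * (M * Q) := mul_le_mul_of_nonneg_left h4 hA.le
      rw [← hNd] at h5 h6
      refine not_W hN hA ?_ ?_
      · rw [mul_add, e]
        nlinarith
      · rw [mul_add, e]
        nlinarith
  rcases allowed2 hr hr1 hrM (x := x₀) (b - 2) with h | h
  · exact ⟨b - 2, h, good 2 (by norm_num) le_rfl⟩
  · rw [show b - 2 + 1 = b - 1 by ring] at h
    exact ⟨b - 1, h, good 1 le_rfl (by norm_num)⟩

end Pool.Agent.Helper43.TN
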